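import Pool.Agent.Y519.CF.Even

set_option autoImplicit false

/-!
MP_f3b8e9_an, stronger form of the starting result `ConvexClosureFails` (whose definitions are
used).  For EVERY open disc containing `0` and EVERY even order `n = 2 m` the closure statement
fails, for the plain operator `d^n/dz^n` with the boundary conditions
`f(a) = f(b) = f''(a) = f''(b) = ... = 0` at two points of the disc, and the closure of the root
vectors has infinite codimension in the common domain of the powers.
-/

namespace Pool.Agent.Results.MP_f3b8e9_an.EveryDisc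

open Pool.Agent.Results.MP_f3b8e9_an.ConvexClosureFails
open Pool.Agent.Y519.CF

/-- the radius of the model disc with centre `2` -/
noncomputable def rho : ℝ := Real.sqrt (4 + Real.pi ^ 2)

lemma rho_sq : rho ^ 2 = 4 + Real.pi ^ 2 := Real.sq_sqrt (by positivity)
lemma rho_pos : 0 < rho := Real.sqrt_pos.mpr (by positivity)

lemma norm_sq' (s : ℂ) : ‖s - 2‖ ^ 2 = (s.re - 2) ^ 2 + s.im ^ 2 := by
  rw [← Complex.normSq_eq_norm_sq, Complex.normSq_apply]
  simp
  ring

lemma model_iff (s : ℂ) : ‖s - 2‖ < rho ↔ (s.re - 2) ^ 2 + s.im ^ 2 < 4 + Real.pi ^ 2 := by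
  rw [← norm_sq', ← rho_sq]
  exact (sq_lt_sq₀ (norm_nonneg _) rho_pos.le).symm

lemma model_sub {s : ℂ} (h : ‖s - 2‖ < rho) : s ∈ Om2 := by
  rw [model_iff] at h
  have hpi := Real.pi_lt_d2
  have hpi3 := Real.pi_gt_three
  constructor
  · by_contra hc
    push Not at hc
    nlinarith [sq_nonneg s.im]
  · rcases lt_or_ge 0 s.re with h1 | h1
    · exact Or.inr h1
    · left
      apply abs_lt_of_sq_lt_sq _ Real.pi_pos.le
      nlinarith

section

variable (c : ℂ) (R : ℝ)

/-- slope of the similarity onto the model disc -/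
noncomputable def al : ℂ := (rho / R : ℝ)
/-- constant term of the similarity -/
noncomputable def be : ℂ := 2 - al R * c

variable {c R}

lemma al_ne (hR : 0 < R) : al R ≠ 0 := by
  unfold al
  exact_mod_cast (div_pos rho_pos hR).ne'

lemma al_norm (hR : 0 < R) : ‖al R‖ = rho / R := by
  unfold al
  rw [Complex.norm_real, Real.norm_of_nonneg (div_pos rho_pos hR).le]

lemma fwd (hR : 0 < R) {z : ℂ} (hz : z ∈ Metric.ball c R) : ‖al R * z + be c R - 2‖ < rho := by
  have e : al R * z + be c R - 2 = al R * (z - c) := by unfold be; ring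
  rw [e, norm_mul, al_norm hR]
  rw [mem_ball_iff_norm] at hz
  calc rho / R * ‖z - c‖ < rho / R * R := by
        exact mul_lt_mul_of_pos_left hz (div_pos rho_pos hR)
    _ = rho := by field_simp

lemma bwd (hR : 0 < R) {s : ℂ} (hs : ‖s - 2‖ < rho) : (s - be c R) / al R ∈ Metric.ball c R := by
  have hne := al_ne hR
  rw [mem_ball_iff_norm]
  have e : (s - be c R) / al R - c = (s - 2) / al R := by
    unfold be; field_simp; ring
  rw [e, norm_div, al_norm hR, div_lt_iff₀ (div_pos rho_pos hR)]
  calc ‖s - 2‖ < rho := hs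
    _ = R * (rho / R) := by field_simp

end

/-- **Main result.**  Let `Ω` be any open disc which contains `0`, and let `n = 2 m` be any even
order, `m ≥ 1`.  Take `ℓ = (d/dz)^n`.  There are two points `a ≠ b` of `Ω` such that for the `n`
functionals `f ↦ f^(2i)(a)`, `f ↦ f^(2i)(b)` (`0 ≤ i < m`) one has: `Δ` is not identically zero,
but `Cl ≠ D_∞`; the closure of the span of the root vectors has infinite codimension: there are
`g_0, g_1, g_2, ...` in `D_∞` no nontrivial linear combination of which lies in `Cl`. -/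
theorem result (c : ℂ) (R : ℝ) (h0 : (0 : ℂ) ∈ Metric.ball c R) (m : ℕ) (hm : 1 ≤ m) :
    Convex ℝ (Metric.ball c R) ∧
    ∃ (a b : Metric.ball c R) (φ : Fin (2 * m) → (A (Metric.ball c R) →L[ℂ] ℂ)), a ≠ b ∧
      (∀ (i : ℕ) (hi : i < m) (f : A (Metric.ball c R)),
        φ ⟨2 * i, by omega⟩ f = ((D Metric.isOpen_ball)^[2 * i] f).1 a ∧
        φ ⟨2 * i + 1, by omega⟩ f = ((D Metric.isOpen_ball)^[2 * i] f).1 b) ∧
      DeltaNeZero Metric.isOpen_ball h0 (2 * m) (fun _ => 0) φ ∧
      Cl Metric.isOpen_ball (2 * m) (fun _ => 0) φ ≠ DInfty Metric.isOpen_ball (2 * m) (fun _ => 0) φ ∧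
      ∃ g : ℕ → A (Metric.ball c R),
        (∀ k, g k ∈ DInfty Metric.isOpen_ball (2 * m) (fun _ => 0) φ) ∧
        ∀ (s : Finset ℕ) (u : ℕ → ℂ),
          ∑ k ∈ s, u k • g k ∈ Cl Metric.isOpen_ball (2 * m) (fun _ => 0) φ → ∀ k ∈ s, u k = 0 := by
  have hR : 0 < R := by
    rw [mem_ball_iff_norm] at h0
    exact (norm_nonneg _).trans_lt h0
  have hne := al_ne hR
  have hcv : Convex ℝ (Metric.ball c R) := convex_ball c R
  have hpi3 := Real.pi_gt_three
  have hpi := Real.pi_gt_d2
  have hmod : ∀ t : ℝ, (t = -(Real.pi / 2) ∨ t = Real.pi / 2) → ∀ p : ℂ, p.re = -1 → p.im = t →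
      ‖p - 2‖ < rho := by
    intro t ht p h1 h2
    rw [model_iff, h1, h2]
    rcases ht with rfl | rfl <;> nlinarith
  have ha : (pa - be c R) / al R ∈ Metric.ball c R := bwd hR (hmod _ (Or.inl rfl) pa pa_re pa_im)
  have hb : (pb - be c R) / al R ∈ Metric.ball c R := bwd hR (hmod _ (Or.inr rfl) pb pb_re pb_im)
  have hTa : al R * ((pa - be c R) / al R) + be c R = pa := by field_simp; ring
  have hTb : al R * ((pb - be c R) / al R) + be c R = pb := by field_simp; ring
  have hab : (pa - be c R) / al R ≠ (pb - be c R) / al R := by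
    intro h
    have h1 : pa = pb := by rw [← hTa, ← hTb, h]
    have h2 := congrArg Complex.im h1
    rw [pa_im, pb_im] at h2
    linarith [Real.pi_pos]
  have hT : ∀ z ∈ Metric.ball c R, al R * z + be c R ∈ Om2 := fun z hz => model_sub (fwd hR hz)
  have hseg : ∀ x : ℝ, 1 ≤ x → x ≤ 3 →
      ((x : ℂ) - Real.pi * Complex.I - be c R) / al R ∈ Metric.ball c R ∧
      ((x : ℂ) + Real.pi * Complex.I - be c R) / al R ∈ Metric.ball c R := by
    intro x h1 h3
    constructor
    · apply bwd hR
      rw [model_iff]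
      simp
      nlinarith
    · apply bwd hR
      rw [model_iff]
      simp
      nlinarith
  refine ⟨hcv, ⟨_, ha⟩, ⟨_, hb⟩, phE Metric.isOpen_ball ha hb m, ?_, ?_, ?_, ?_, ?_⟩
  · intro h
    exact hab (congrArg Subtype.val h)
  · intro i hi f
    constructor
    · rw [phE_a Metric.isOpen_ball ha hb m i hi]; rfl
    · rw [phE_b Metric.isOpen_ball ha hb m i hi]; rfl
  · exact deltaE Metric.isOpen_ball h0 ha hb hab m
  · intro hEq
    have h1 := gg_memE Metric.isOpen_ball hT ha hb hTa hTb m 0
    rw [← hEq] at h1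
    have h2 := gg_indepE Metric.isOpen_ball hcv h0 hne hT ha hb hTa hTb hseg m hm {0} (fun _ => 1)
      (by rw [Finset.sum_singleton, one_smul]; exact h1) 0 (Finset.mem_singleton_self 0)
    exact one_ne_zero h2
  · exact ⟨gg hT, fun k => gg_memE Metric.isOpen_ball hT ha hb hTa hTb m k,
      fun s u hu => gg_indepE Metric.isOpen_ball hcv h0 hne hT ha hb hTa hTb hseg m hm s u hu⟩

end Pool.Agent.Results.MP_f3b8e9_an.EveryDisc
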